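import Pool.Agent.Helper98.CP.Basic

set_option autoImplicit false

namespace Pool.Agent.CP

open Stage

/-- elements of a subgroup `K` of a finite dimensional rational vector space pairwise incongruent
modulo `m K` are at most `m ^ dim` in number -/
theorem card_incongruent_le {W : Type*} [AddCommGroup W] [Module ℚ W] [FiniteDimensional ℚ W]
    (K : AddSubgroup W) (m : ℕ) (hm : 0 < m) (F : Finset W) (hF : ∀ f ∈ F, f ∈ K)
    (hinc : ∀ f ∈ F, ∀ f' ∈ F, (∃ l ∈ K, f - f' = m • l) → f = f') :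
    F.card ≤ m ^ (Module.finrank ℚ W) := by
  classical
  have : NeZero m := ⟨hm.ne'⟩
  let K1 : Submodule ℤ W := Submodule.span ℤ (F : Set W)
  have hK1 : ∀ w ∈ K1, w ∈ K := by
    intro w hw
    have : K1 ≤ AddSubgroup.toIntSubmodule K := Submodule.span_le.2 (fun f hf => hF f hf)
    exact this hw
  have : Module.Finite ℤ K1 := Module.Finite.iff_fg.2 ⟨F, rfl⟩
  have : IsAddTorsionFree W := .of_module_rat _
  have : Module.IsTorsionFree ℤ K1 := by
    infer_instance
  have : Module.Free ℤ K1 := inferInstance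
  let b := Module.finBasis ℤ K1
  have hli : LinearIndependent ℚ (fun i => (b i : W)) := by
    have h1 : LinearIndependent ℤ (fun i => (b i : W)) :=
      b.linearIndependent.map' K1.subtype (Submodule.ker_subtype K1)
    exact (LinearIndependent.iff_fractionRing ℤ ℚ).1 h1
  have hn : Module.finrank ℤ K1 ≤ Module.finrank ℚ W := by
    have := hli.fintype_card_le_finrank
    simpa using this
  let φ : {f // f ∈ F} → (Fin (Module.finrank ℤ K1) → ZMod m) := fun f i =>
    ((b.repr ⟨f.1, Submodule.subset_span f.2⟩ i : ℤ) : ZMod m)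
  have hφ : Function.Injective φ := by
    rintro ⟨f, hf⟩ ⟨f', hf'⟩ hff
    apply Subtype.ext
    refine hinc f hf f' hf' ?_
    let u : K1 := ⟨f, Submodule.subset_span hf⟩
    let u' : K1 := ⟨f', Submodule.subset_span hf'⟩
    have h1 : ∀ i, ∃ a : ℤ, b.repr u i - b.repr u' i = m * a := by
      intro i
      have h2 := congrFun hff i
      have h3 : (m : ℤ) ∣ b.repr u' i - b.repr u i :=
        (ZMod.intCast_eq_intCast_iff_dvd_sub _ _ _).1 h2
      obtain ⟨a, ha⟩ := h3
      exact ⟨-a, by rw [mul_neg, ← ha]; ring⟩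
    choose a ha using h1
    refine ⟨((∑ i, a i • b i : K1) : W), hK1 _ (Subtype.prop _), ?_⟩
    have h4 : u - u' = m • (∑ i, a i • b i) := by
      apply b.repr.injective
      ext i
      rw [map_sub, Finsupp.sub_apply, ha i, map_nsmul, Finsupp.smul_apply, map_sum]
      rw [Finsupp.finsetSum_apply]
      simp [Finsupp.single_apply]
    have h5 := congrArg (Subtype.val) h4
    simpa [u, u'] using h5
  have hcard := Fintype.card_le_of_injective φ hφ
  have h6 : Fintype.card (Fin (Module.finrank ℤ K1) → ZMod m) = m ^ Module.finrank ℤ K1 := by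
    rw [Fintype.card_pi]; simp [ZMod.card]
  rw [h6, Fintype.card_coe] at hcard
  exact hcard.trans (Nat.pow_le_pow_right hm hn)

/-- for a subgroup `K` of a finite dimensional rational vector space, `K / m K` is finite -/
theorem finite_mod {W : Type*} [AddCommGroup W] [Module ℚ W] [FiniteDimensional ℚ W]
    (K : AddSubgroup W) (m : ℕ) (hm : 0 < m) :
    ∃ F : Finset W, (∀ f ∈ F, f ∈ K) ∧ ∀ l ∈ K, ∃ f ∈ F, ∃ l' ∈ K, l = f + m • l' := by
  classical
  let P : ℕ → Prop := fun n => ∃ F : Finset W, (∀ f ∈ F, f ∈ K) ∧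
    (∀ f ∈ F, ∀ f' ∈ F, (∃ l ∈ K, f - f' = m • l) → f = f') ∧ F.card = n
  have hP : ∀ n, P n → n ≤ m ^ (Module.finrank ℚ W) := by
    rintro n ⟨F, h1, h2, rfl⟩
    exact card_incongruent_le K m hm F h1 h2
  have h0 : P 0 := ⟨∅, by simp, by simp, rfl⟩
  obtain ⟨F, h1, h2, h3⟩ : P (Nat.findGreatest P (m ^ (Module.finrank ℚ W))) :=
    Nat.findGreatest_spec (Nat.zero_le _) h0
  refine ⟨F, h1, fun l hl => ?_⟩
  by_contra hcon
  push Not at hcon
  have hnot : ∀ f ∈ F, ¬ ∃ l' ∈ K, l - f = m • l' := by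
    rintro f hf ⟨l', hl', h⟩
    exact hcon f hf l' hl' (by rw [← h]; abel)
  have hlF : l ∉ F := fun h => hnot l h ⟨0, K.zero_mem, by simp⟩
  have h4 : P (F.card + 1) := by
    refine ⟨insert l F, ?_, ?_, Finset.card_insert_of_notMem hlF⟩
    · intro f hf
      rcases Finset.mem_insert.1 hf with rfl | hf
      · exact hl
      · exact h1 f hf
    · intro f hf f' hf' h
      rcases Finset.mem_insert.1 hf with rfl | hf <;>
        rcases Finset.mem_insert.1 hf' with rfl | hf'
      · rfl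
      · exact absurd h (hnot f' hf')
      · obtain ⟨l', hl', h⟩ := h
        exact absurd ⟨-l', K.neg_mem hl', by rw [smul_neg, ← h]; abel⟩ (hnot f (by assumption))
      · exact h2 f hf f' hf' h
  have h5 := Nat.le_findGreatest (hP _ h4) h4
  omega

variable {G V : Type*} [Group G] [AddCommGroup V] [Module ℚ V]

/-- the classes modulo `NB` of the vectors `z ∈ U` with `m z ∈ NB` are finite in number -/
theorem finite_torsion [FiniteDimensional ℚ V] (S : Stage G V) (x : V) (m : ℕ) (hm : 0 < m) :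
    ∃ F : Finset V, ∀ z ∈ S.U, S.NB x (m • z) → ∃ f ∈ F, S.NB x (z - f) := by
  classical
  let K : AddSubgroup (V →ₗ[ℚ] V) :=
    { carrier := {l | l ∈ S.L ∧ l x ∈ S.U}
      zero_mem' := ⟨S.L.zero_mem, by simp⟩
      add_mem' := fun {a b} ha hb => ⟨S.L.add_mem ha.1 hb.1, by
        rw [LinearMap.add_apply]; exact S.U.add_mem ha.2 hb.2⟩
      neg_mem' := fun {a} ha => ⟨S.L.neg_mem ha.1, by
        rw [LinearMap.neg_apply]; exact S.U.neg_mem ha.2⟩ }
  obtain ⟨F0, hF0, hF⟩ := finite_mod K m hm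
  refine ⟨F0.image (fun f => ((m : ℚ)⁻¹) • f x), fun z hz hNB => ?_⟩
  obtain ⟨l, hl, h⟩ := hNB
  have hlx : l x ∈ S.U := by
    have h1 : m • z ∈ S.U := S.U.smul_of_tower_mem m hz
    have := S.U.sub_mem h1 (S.U'_le h)
    simpa using this
  obtain ⟨f, hf, l', hl', rfl⟩ := hF l ⟨hl, hlx⟩
  refine ⟨_, Finset.mem_image_of_mem _ hf, l', hl'.1, ?_⟩
  have hm0 : (m : ℚ) ≠ 0 := by exact_mod_cast hm.ne'
  have h2 := S.U'.smul_mem ((m : ℚ)⁻¹) h
  have e : z - (m : ℚ)⁻¹ • f x - l' x = (m : ℚ)⁻¹ • (m • z - (f + m • l') x) := by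
    rw [LinearMap.add_apply, LinearMap.smul_apply, ← Nat.cast_smul_eq_nsmul ℚ m z,
      ← Nat.cast_smul_eq_nsmul ℚ m (l' x), smul_sub, smul_add, smul_smul, smul_smul,
      inv_mul_cancel₀ hm0, one_smul, one_smul]
    abel
  rw [e]
  exact h2

end Pool.Agent.CP
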