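import Pool.Agent.Helper98.CP.Basic

set_option autoImplicit false

namespace Pool.Agent.CP

open Stage

variable {G V : Type*} [Group G] [AddCommGroup V] [Module ℚ V]

/-- subgroups of a finitely generated commutative group are finitely generated -/
theorem fg_of_comm {Q : Type*} [Group Q] [Group.FG Q] (hc : ∀ a b : Q, a * b = b * a)
    (K : Subgroup Q) : K.FG := by
  let _ : CommGroup Q := { (inferInstance : Group Q) with mul_comm := hc }
  have h1 : Group.FG Q := inferInstance
  have h2 : AddGroup.FG (Additive Q) := inferInstance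
  have h3 : Module.Finite ℤ (Additive Q) := Module.Finite.iff_addGroup_fg.2 h2
  have h4 : IsNoetherian ℤ (Additive Q) := inferInstance
  have h5 : (AddSubgroup.toIntSubmodule K.toAddSubgroup).FG := IsNoetherian.noetherian _
  have h6 : (AddSubgroup.toIntSubmodule K.toAddSubgroup).toAddSubgroup.FG :=
    Submodule.fg_iff_addSubgroup_fg _ |>.1 h5
  have h7 : K.toAddSubgroup.FG := by simpa using h6
  exact (Subgroup.fg_iff_add_fg K).2 h7

/-- every subgroup is finitely generated modulo `N` -/
theorem exists_list_cl [Group.FG G] (S : Stage G V) (H : Subgroup G) :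
    ∃ Λ : List G, (∀ g ∈ Λ, g ∈ H) ∧ H ≤ S.cl Λ := by
  classical
  have hc : ∀ a b : G ⧸ S.N, a * b = b * a := by
    intro a b
    induction a using QuotientGroup.induction_on with
    | H a =>
      induction b using QuotientGroup.induction_on with
      | H b =>
        rw [← QuotientGroup.mk_mul, ← QuotientGroup.mk_mul, QuotientGroup.eq]
        have := S.comm b⁻¹ a⁻¹
        simpa [mul_assoc] using this
  obtain ⟨T, hT⟩ := fg_of_comm hc (H.map (QuotientGroup.mk' S.N))
  have hT' : ∀ t ∈ T, ∃ g ∈ H, QuotientGroup.mk' S.N g = t := by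
    intro t ht
    have : t ∈ H.map (QuotientGroup.mk' S.N) := by
      rw [← hT]; exact Subgroup.subset_closure ht
    exact this
  choose! f hf hf' using hT'
  refine ⟨T.toList.map f, ?_, ?_⟩
  · intro g hg
    obtain ⟨t, ht, rfl⟩ := List.mem_map.1 hg
    exact hf t (by simpa using ht)
  · intro g hg
    have h1 : QuotientGroup.mk' S.N g ∈
        (Subgroup.closure {g | g ∈ T.toList.map f}).map (QuotientGroup.mk' S.N) := by
      have h2 : QuotientGroup.mk' S.N g ∈ H.map (QuotientGroup.mk' S.N) :=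
        Subgroup.mem_map_of_mem _ hg
      rw [← hT] at h2
      refine (Subgroup.closure_le _).2 ?_ h2
      intro t ht
      refine ⟨f t, Subgroup.subset_closure ?_, hf' t ht⟩
      exact List.mem_map.2 ⟨t, by simpa using ht, rfl⟩
    have h3 : g ∈ ((Subgroup.closure {g | g ∈ T.toList.map f}).map
        (QuotientGroup.mk' S.N)).comap (QuotientGroup.mk' S.N) := h1
    rw [Subgroup.comap_map_eq, QuotientGroup.ker_mk'] at h3
    exact h3

theorem lc_eq_sum {W : Type*} [AddCommGroup W] (vs : List W) (e : List ℤ)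
    (h : e.length = vs.length) :
    lc vs e = ∑ i : Fin vs.length, (e.get (Fin.cast h.symm i)) • vs.get i := by
  induction vs generalizing e with
  | nil => simp [lc]
  | cons v vs ih =>
    match e, h with
    | [], h => simp at h
    | a :: e, h =>
      have h' : e.length = vs.length := by simpa using h
      rw [lc, ih e h']
      exact (Fin.sum_univ_succ (n := vs.length)
        (fun i => (a :: e).get (Fin.cast h.symm i) • (v :: vs).get i)).symm

/-- splitting off the kernel of a homomorphism to a torsion-free group `W / P` -/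
theorem exists_split [Group.FG G] (S : Stage G V) (H : Subgroup G) {W : Type*} [AddCommGroup W]
    (P : AddSubgroup W) (hP : ∀ (m : ℕ) (w : W), 0 < m → m • w ∈ P → w ∈ P)
    (φ : G → W) (hφ : ∀ a ∈ H, ∀ b ∈ H, φ (a * b) - (φ a + φ b) ∈ P)
    (hN : ∀ ν ∈ S.N, ν ∈ H → φ ν ∈ P) :
    ∃ b h : List G, (∀ g ∈ b, g ∈ H) ∧ (∀ g ∈ h, g ∈ H) ∧ H ≤ S.cl (b ++ h) ∧
      (∀ g ∈ h, φ g ∈ P) ∧ Ind (fun w => w ∈ P) (b.map φ) ∧
      (∀ g ∈ H, φ g ∈ P → g ∈ S.cl h) := by
  classical
  -- the homomorphism to `W / P`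
  have hmk : ∀ a b : W, (QuotientAddGroup.mk a : W ⧸ P) = QuotientAddGroup.mk b ↔ a - b ∈ P := by
    intro a b
    rw [eq_comm, QuotientAddGroup.eq]
    rw [show -b + a = a - b by abel]
  let ψ : H →* Multiplicative (W ⧸ P) := MonoidHom.mk'
    (fun g => Multiplicative.ofAdd (QuotientAddGroup.mk (φ g))) (by
      rintro ⟨a, ha⟩ ⟨b, hb⟩
      rw [← ofAdd_add, ← QuotientAddGroup.mk_add]
      congr 1
      exact (hmk _ _).2 (hφ a ha b hb))
  let θ : Additive H →+ W ⧸ P := MonoidHom.toAdditiveLeft ψ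
  have hθ : ∀ g : H, θ (Additive.ofMul g) = QuotientAddGroup.mk (φ g) := fun g => rfl
  have hθ0 : ∀ g : H, θ (Additive.ofMul g) = 0 ↔ φ g ∈ P := by
    intro g
    rw [hθ, QuotientAddGroup.eq_zero_iff]
  let K : Subgroup G := (ψ.ker).map H.subtype
  have hK : ∀ g, g ∈ K ↔ g ∈ H ∧ φ g ∈ P := by
    intro g
    constructor
    · rintro ⟨⟨a, ha⟩, hk, rfl⟩
      refine ⟨ha, ?_⟩
      have : ψ ⟨a, ha⟩ = 1 := hk
      exact (QuotientAddGroup.eq_zero_iff _).1 (congrArg Multiplicative.toAdd this)
    · rintro ⟨hg, hg'⟩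
      refine ⟨⟨g, hg⟩, ?_, rfl⟩
      show ψ ⟨g, hg⟩ = 1
      have : (QuotientAddGroup.mk (φ g) : W ⧸ P) = 0 := (QuotientAddGroup.eq_zero_iff _).2 hg'
      show Multiplicative.ofAdd _ = _
      rw [this]; rfl
  obtain ⟨h, hh, hKh⟩ := exists_list_cl S K
  obtain ⟨Λ, hΛ, hHΛ⟩ := exists_list_cl S H
  -- the image
  let R : Submodule ℤ (W ⧸ P) := AddSubgroup.toIntSubmodule θ.range
  have hRfg : R.FG := by
    refine ⟨(Λ.map (fun g => (QuotientAddGroup.mk (φ g) : W ⧸ P))).toFinset, ?_⟩
    apply le_antisymm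
    · rw [Submodule.span_le]
      intro r hr
      simp only [List.coe_toFinset, List.mem_map, Set.mem_ofPred_eq] at hr
      obtain ⟨g, hg, rfl⟩ := hr
      exact ⟨Additive.ofMul ⟨g, hΛ g hg⟩, rfl⟩
    · rintro r ⟨g, rfl⟩
      obtain ⟨g, hg⟩ := g
      have key : ∀ w ∈ Subgroup.closure {g | g ∈ Λ}, ∀ hw : w ∈ H,
          θ (Additive.ofMul ⟨w, hw⟩) ∈ Submodule.span ℤ
            (((Λ.map (fun g => (QuotientAddGroup.mk (φ g) : W ⧸ P))).toFinset : Finset (W ⧸ P)) :
              Set (W ⧸ P)) := by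
        intro w hw
        induction hw using Subgroup.closure_induction with
        | mem x hx =>
          intro hw
          apply Submodule.subset_span
          simp only [List.coe_toFinset, List.mem_map, Set.mem_ofPred_eq]
          exact ⟨x, hx, rfl⟩
        | one =>
          intro hw
          have : (⟨1, hw⟩ : H) = 1 := rfl
          rw [this, ofMul_one, map_zero]
          exact Submodule.zero_mem _
        | mul x y hx hy ihx ihy =>
          intro hw
          have hxH : x ∈ H := (Subgroup.closure_le _).2 (fun g hg => hΛ g hg) hx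
          have hyH : y ∈ H := (Subgroup.closure_le _).2 (fun g hg => hΛ g hg) hy
          have : (⟨x * y, hw⟩ : H) = ⟨x, hxH⟩ * ⟨y, hyH⟩ := rfl
          rw [this, ofMul_mul, map_add]
          exact Submodule.add_mem _ (ihx hxH) (ihy hyH)
        | inv x hx ihx =>
          intro hw
          have hxH : x ∈ H := (Subgroup.closure_le _).2 (fun g hg => hΛ g hg) hx
          have : (⟨x⁻¹, hw⟩ : H) = (⟨x, hxH⟩ : H)⁻¹ := rfl
          rw [this, ofMul_inv, map_neg]
          exact Submodule.neg_mem _ (ihx hxH)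
      have hg2 := hHΛ hg
      have hg3 : g ∈ ((Subgroup.closure {g | g ∈ Λ} ⊔ S.N : Subgroup G) : Set G) := hg2
      rw [Subgroup.mul_normal] at hg3
      obtain ⟨w, hw, ν, hν, hwν⟩ := Set.mem_mul.1 hg3
      have hwH : w ∈ H := (Subgroup.closure_le _).2 (fun g hg => hΛ g hg) hw
      have hνH : ν ∈ H := by
        have : ν = w⁻¹ * g := by rw [← hwν]; group
        rw [this]; exact H.mul_mem (H.inv_mem hwH) hg
      have e1 : (⟨g, hg⟩ : H) = ⟨w, hwH⟩ * ⟨ν, hνH⟩ := Subtype.ext hwν.symm
      have e2 : θ (Additive.ofMul (⟨ν, hνH⟩ : H)) = 0 := (hθ0 _).2 (hN ν hν hνH)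
      show θ (Additive.ofMul (⟨g, hg⟩ : H)) ∈ _
      rw [e1, ofMul_mul, map_add, e2, add_zero]
      exact key w hw hwH
  have htf : IsAddTorsionFree (W ⧸ P) := by
    constructor
    intro n hn x y hxy
    induction x using QuotientAddGroup.induction_on with
    | H x =>
      induction y using QuotientAddGroup.induction_on with
      | H y =>
        apply (hmk x y).2
        apply hP n _ (Nat.pos_of_ne_zero hn)
        have h1 : (QuotientAddGroup.mk (n • x) : W ⧸ P) = QuotientAddGroup.mk (n • y) := by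
          simpa using hxy
        rw [smul_sub]
        exact (hmk _ _).1 h1
  have : Module.Finite ℤ R := Module.Finite.iff_fg.2 hRfg
  have : Module.Free ℤ R := inferInstance
  let B := Module.finBasis ℤ R
  have hlift : ∀ i, ∃ g : H, θ (Additive.ofMul g) = (B i : W ⧸ P) := by
    intro i
    obtain ⟨g, hg⟩ := (B i).2
    exact ⟨Additive.toMul g, hg⟩
  choose β hβ using hlift
  refine ⟨List.ofFn (fun i => (β i : G)), h, ?_, ?_, ?_, ?_, ?_, ?_⟩
  · intro g hg
    rw [List.mem_ofFn] at hg
    obtain ⟨i, rfl⟩ := hg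
    exact (β i).2
  · intro g hg
    exact ((hK g).1 (hh g hg)).1
  · intro g hg
    -- find w in closure b with the same image
    have h1 : ∃ w ∈ Subgroup.closure {g | g ∈ List.ofFn (fun i => (β i : G))}, ∃ hw : w ∈ H,
        θ (Additive.ofMul (⟨w, hw⟩ : H)) = θ (Additive.ofMul (⟨g, hg⟩ : H)) := by
      have h2 : ∀ r ∈ Submodule.span ℤ (Set.range B), ∃ w ∈ Subgroup.closure
          {g | g ∈ List.ofFn (fun i => (β i : G))}, ∃ hw : w ∈ H,
          θ (Additive.ofMul (⟨w, hw⟩ : H)) = (r : W ⧸ P) := by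
        intro r hr
        induction hr using Submodule.span_induction with
        | mem x hx =>
          obtain ⟨i, rfl⟩ := hx
          refine ⟨β i, Subgroup.subset_closure ?_, (β i).2, hβ i⟩
          exact List.mem_ofFn.2 ⟨i, rfl⟩
        | zero =>
          refine ⟨1, Subgroup.one_mem _, H.one_mem, ?_⟩
          have : (⟨1, H.one_mem⟩ : H) = 1 := rfl
          rw [this, ofMul_one, map_zero]; rfl
        | add x y _ _ hx hy =>
          obtain ⟨w, hw, hwH, e⟩ := hx
          obtain ⟨w', hw', hwH', e'⟩ := hy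
          refine ⟨w * w', Subgroup.mul_mem _ hw hw', H.mul_mem hwH hwH', ?_⟩
          have : (⟨w * w', H.mul_mem hwH hwH'⟩ : H) = ⟨w, hwH⟩ * ⟨w', hwH'⟩ := rfl
          rw [this, ofMul_mul, map_add, e, e']; rfl
        | smul a x _ hx =>
          obtain ⟨w, hw, hwH, e⟩ := hx
          refine ⟨w ^ a, Subgroup.zpow_mem _ hw a, H.zpow_mem hwH a, ?_⟩
          have : (⟨w ^ a, H.zpow_mem hwH a⟩ : H) = ⟨w, hwH⟩ ^ a := rfl
          rw [this, ofMul_zpow, map_zsmul, e]; rfl
      have h3 : (⟨θ (Additive.ofMul (⟨g, hg⟩ : H)), ⟨_, rfl⟩⟩ : R) ∈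
          Submodule.span ℤ (Set.range B) := by rw [B.span_eq]; trivial
      exact h2 _ h3
    obtain ⟨w, hw, hwH, e⟩ := h1
    have h4 : w⁻¹ * g ∈ K := by
      have hmem : w⁻¹ * g ∈ H := H.mul_mem (H.inv_mem hwH) hg
      rw [hK]
      refine ⟨hmem, ?_⟩
      have h5 : θ (Additive.ofMul (⟨w⁻¹ * g, hmem⟩ : H)) = 0 := by
        have : (⟨w⁻¹ * g, hmem⟩ : H) = (⟨w, hwH⟩ : H)⁻¹ * ⟨g, hg⟩ := rfl
        rw [this, ofMul_mul, ofMul_inv, map_add, map_neg, e]
        simp
      exact (hθ0 _).1 h5
    have h5 := hKh h4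
    have h6 : w ∈ S.cl (List.ofFn (fun i => (β i : G)) ++ h) := by
      refine Subgroup.mem_sup_left (Subgroup.closure_mono ?_ hw)
      intro g hg
      exact List.mem_append_left _ hg
    have h7 : w⁻¹ * g ∈ S.cl (List.ofFn (fun i => (β i : G)) ++ h) := by
      refine cl_le (H := S.cl (List.ofFn (fun i => (β i : G)) ++ h)) ?_ (N_le_cl _) h5
      intro g hg
      exact mem_cl_of_mem (List.mem_append_right _ hg)
    have h8 := Subgroup.mul_mem _ h6 h7
    simpa using h8
  · intro g hg
    exact ((hK g).1 (hh g hg)).2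
  · intro e he hlc
    have hlen : e.length = Module.finrank ℤ R := by simpa using he
    have h1 : (QuotientAddGroup.mk (lc (List.map φ (List.ofFn fun i => (β i : G))) e) : W ⧸ P)
        = 0 := (QuotientAddGroup.eq_zero_iff _).2 hlc
    rw [lc_eq_sum _ _ he] at h1
    have h2 : (∑ i : Fin (Module.finrank ℤ R), (e.get (Fin.cast hlen.symm i)) • B i : R) = 0 := by
      apply Subtype.ext
      rw [ZeroMemClass.coe_zero, ← h1]
      rw [← QuotientAddGroup.mk'_apply, map_sum]
      have hl2 : (List.map φ (List.ofFn fun i => (β i : G))).length = Module.finrank ℤ R := by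
        simp
      rw [← Equiv.sum_comp (finCongr hl2)]
      rw [AddSubmonoidClass.coe_finsetSum]
      refine Finset.sum_congr rfl (fun i _ => ?_)
      rw [map_zsmul]
      have h3 : ((B (finCongr hl2 i) : R) : W ⧸ P) = QuotientAddGroup.mk' P
          ((List.map φ (List.ofFn fun i => (β i : G))).get i) := by
        rw [← hβ, hθ]
        simp
        rfl
      rw [← h3]
      rfl
    have h3 := Fintype.linearIndependent_iff.1 B.linearIndependent _ h2
    intro i hi
    obtain ⟨n, hn, rfl⟩ := List.mem_iff_getElem.1 hi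
    exact h3 ⟨n, by omega⟩
  · intro g hg hg'
    exact hKh ((hK g).2 ⟨hg, hg'⟩)

end Pool.Agent.CP
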