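import Pool.Agent.Helper92.CP.OA2
import Pool.Agent.Helper92.CP.OA3a

set_option autoImplicit false

namespace Pool.Agent.CP

open Stage

variable {G V : Type*} [Group G] [AddCommGroup V] [Module ℚ V]

/-- a cocycle with torsion values on a subgroup `H ≤ C x` has finitely many values modulo `NB` -/
theorem finite_values [Group.FG G] [FiniteDimensional ℚ V] (S : Stage G V) (x : V)
    (H : Subgroup G) (hH : H ≤ S.C x) (h : ∀ g ∈ H, S.NQ x (S.d x g)) :
    ∃ c : List G, (∀ g ∈ c, g ∈ H) ∧ (1 : G) ∈ c ∧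
      ∀ g ∈ H, ∃ g' ∈ c, S.NB x (S.d x g - S.d x g') := by
  classical
  obtain ⟨Λ, hΛ, hHΛ⟩ := exists_list_cl S H
  -- a common multiple
  have hcm : ∀ l : List G, (∀ g ∈ l, g ∈ H) → ∃ m : ℕ, 0 < m ∧ ∀ g ∈ l, S.NB x (m • S.d x g) := by
    intro l
    induction l with
    | nil => intro _; exact ⟨1, one_pos, by simp⟩
    | cons a l ih =>
      intro hl
      obtain ⟨m, hm, h1⟩ := ih (fun g hg => hl g (List.mem_cons_of_mem _ hg))
      obtain ⟨n, hn, h2⟩ := (h a (hl a List.mem_cons_self)).exists_nsmul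
      refine ⟨m * n, Nat.mul_pos hm hn, ?_⟩
      intro g hg
      rcases List.mem_cons.1 hg with rfl | hg
      · have := h2.zsmul (m : ℤ)
        rwa [natCast_zsmul, ← mul_smul] at this
      · have := (h1 g hg).zsmul (n : ℤ)
        rwa [natCast_zsmul, ← mul_smul, mul_comm] at this
  obtain ⟨m, hm, hmΛ⟩ := hcm Λ hΛ
  -- the subgroup where `m d` vanishes
  let Hm : Subgroup G :=
    { carrier := {g | g ∈ S.C x ∧ S.NB x (m • S.d x g)}
      one_mem' := ⟨(S.C x).one_mem, by rw [d_one, smul_zero]; exact NB.zero⟩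
      mul_mem' := by
        rintro a b ⟨ha, ha'⟩ ⟨hb, hb'⟩
        refine ⟨(S.C x).mul_mem ha hb, ?_⟩
        rw [d_mul, smul_add]
        have := hb'.act ha
        rw [map_nsmul] at this
        exact this.add ha'
      inv_mem' := by
        rintro a ⟨ha, ha'⟩
        refine ⟨(S.C x).inv_mem ha, ?_⟩
        rw [d_inv, smul_neg]
        have := ha'.act ((S.C x).inv_mem ha)
        rw [map_nsmul] at this
        exact this.neg }
  have hHm : ∀ g ∈ H, S.NB x (m • S.d x g) := by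
    intro g hg
    have hg2 := hHΛ hg
    have hg3 : g ∈ ((Subgroup.closure {g | g ∈ Λ} ⊔ S.N : Subgroup G) : Set G) := hg2
    rw [Subgroup.mul_normal] at hg3
    obtain ⟨w, hw, ν, hν, hwν⟩ := Set.mem_mul.1 hg3
    have hwH : w ∈ H := (Subgroup.closure_le _).2 (fun g hg => hΛ g hg) hw
    have hsub : Subgroup.closure {g | g ∈ Λ} ≤ Hm := by
      rw [Subgroup.closure_le]
      intro g hg
      exact (⟨hH (hΛ g hg), hmΛ g hg⟩ : g ∈ S.C x ∧ S.NB x (m • S.d x g))
    have hw' : w ∈ Hm := hsub hw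
    have hνC : ν ∈ S.C x := by
      have : ν = w⁻¹ * g := by rw [← hwν]; group
      rw [this]; exact (S.C x).mul_mem ((S.C x).inv_mem (hH hwH)) (hH hg)
    have hν' : ν ∈ Hm := by
      refine ⟨hνC, ?_⟩
      have := (NB_of_mem_N hν hνC).zsmul (m : ℤ)
      rwa [natCast_zsmul] at this
    have : g ∈ Hm := by rw [← hwν]; exact Hm.mul_mem hw' hν'
    exact this.2
  obtain ⟨F, hF⟩ := finite_torsion S x m hm
  let att : V → Prop := fun f => ∃ g ∈ H, S.NB x (S.d x g - f)
  have hch : ∀ f, att f → ∃ g ∈ H, S.NB x (S.d x g - f) := fun f hf => hf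
  choose! c hcH hcf using hch
  refine ⟨1 :: ((F.filter att).toList.map c), ?_, List.mem_cons_self, ?_⟩
  · intro g hg
    rcases List.mem_cons.1 hg with rfl | hg
    · exact H.one_mem
    · obtain ⟨f, hf, rfl⟩ := List.mem_map.1 hg
      rw [Finset.mem_toList, Finset.mem_filter] at hf
      exact hcH f hf.2
  · intro g hg
    obtain ⟨f, hf, hgf⟩ := hF (S.d x g) (hH hg) (hHm g hg)
    have hatt : att f := ⟨g, hg, hgf⟩
    refine ⟨c f, List.mem_cons_of_mem _ (List.mem_map.2 ⟨f, ?_, rfl⟩), ?_⟩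
    · rw [Finset.mem_toList, Finset.mem_filter]; exact ⟨hf, hatt⟩
    · exact hgf.trans (hcf f hatt).swap

end Pool.Agent.CP
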